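import Mathlib

/-!
# MP_14d1e0_nt, Q1: the answer is no

For `A = √2 · [[0, 1], [-1, 0]]` no real shift `A - λ I` is a Liouville matrix: in fact
`‖(A - λ I) y - x‖ ≥ 1 / (16 ‖y‖^3)` for all real `λ`, all integer vectors `x` and all nonzero
integer vectors `y`.  The reason is that the combination `y₂ ε₁ - y₁ ε₂` of the two errors does not
involve `λ` and equals `√2 (y₁² + y₂²) - (x₁ y₂ - x₂ y₁)`.
-/

namespace Pool.Agent.Results.MP_14d1e0_nt.NoShiftIsLiouville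

/-- Liouville matrices.  (1) no exact integer relation; (2) for each `N > 0` there are integer
vectors `x`, `y` with `‖y‖ ≥ 2` and `‖M y - x‖ < ‖y‖^(-N)` (sup norms).  The lower bound `‖y‖ ≥ 2`
is the usual one in the definition of Liouville numbers (denominator `> 1`); without it condition
(2) would hold for every matrix, as is seen from `‖y‖ = 1`. -/
def IsLiouvilleMatrix {m n : ℕ} (M : Matrix (Fin m) (Fin n) ℝ) : Prop :=
  (∀ (y : Fin n → ℤ) (x : Fin m → ℤ), (y ≠ 0 ∨ x ≠ 0) →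
    M.mulVec (fun i => (y i : ℝ)) ≠ fun i => (x i : ℝ)) ∧
  (∀ N : ℝ, 0 < N → ∃ (x : Fin m → ℤ) (y : Fin n → ℤ), 2 ≤ ‖(fun i => (y i : ℝ))‖ ∧
    ‖M.mulVec (fun i => (y i : ℝ)) - (fun i => (x i : ℝ))‖ < ‖(fun i => (y i : ℝ))‖ ^ (-N))

/-- Variant of Liouville matrices: condition (2) is replaced by the existence, for each `N > 0`, of
infinitely many integer vectors `y ≠ 0` having an integer vector `x` with
`‖M y - x‖ < ‖y‖^(-N)`. -/
def IsLiouvilleMatrix' {m n : ℕ} (M : Matrix (Fin m) (Fin n) ℝ) : Prop :=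
  (∀ (y : Fin n → ℤ) (x : Fin m → ℤ), (y ≠ 0 ∨ x ≠ 0) →
    M.mulVec (fun i => (y i : ℝ)) ≠ fun i => (x i : ℝ)) ∧
  (∀ N : ℝ, 0 < N → {y : Fin n → ℤ | y ≠ 0 ∧ ∃ x : Fin m → ℤ,
    ‖M.mulVec (fun i => (y i : ℝ)) - (fun i => (x i : ℝ))‖
      < ‖(fun i => (y i : ℝ))‖ ^ (-N)}.Infinite)

/-- The matrix `A = √2 · [[0, 1], [-1, 0]]`. -/
noncomputable def A : Matrix (Fin 2) (Fin 2) ℝ := !![0, Real.sqrt 2; -Real.sqrt 2, 0]

/-- `|√2 N - M| ≥ 1 / (4 N)`. -/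
lemma sqrt_two_bound (N M : ℤ) (hN : 1 ≤ N) : 1 / (4 * (N : ℝ)) ≤ |Real.sqrt 2 * N - M| := by
  have hs2 : Real.sqrt 2 * Real.sqrt 2 = 2 := Real.mul_self_sqrt (by norm_num)
  have hs0 : 0 ≤ Real.sqrt 2 := Real.sqrt_nonneg 2
  have hsl : 1.4 < Real.sqrt 2 := by
    rw [Real.lt_sqrt (by norm_num)]; norm_num
  have hsu : Real.sqrt 2 < 1.5 := by
    rw [Real.sqrt_lt' (by norm_num)]; norm_num
  have hNR : (1 : ℝ) ≤ N := by exact_mod_cast hN
  -- `2 N² ≠ M²`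
  have hne : (2 * N ^ 2 - M ^ 2 : ℤ) ≠ 0 := by
    intro h
    have hirr := irrational_sqrt_two
    apply hirr
    refine ⟨|(M : ℚ)| / N, ?_⟩
    have hN0 : (N : ℝ) ≠ 0 := by positivity
    have h2 : (2 : ℝ) * N ^ 2 = M ^ 2 := by
      have : (2 * N ^ 2 : ℤ) = M ^ 2 := by linarith
      exact_mod_cast this
    have h3 : Real.sqrt 2 = Real.sqrt ((|(M : ℝ)| / N) ^ 2) := by
      congr 1
      rw [div_pow, sq_abs]
      field_simp
      linarith
    rw [h3, Real.sqrt_sq (by positivity)]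
    push_cast
    rfl
  have habs : (1 : ℝ) ≤ |2 * (N : ℝ) ^ 2 - M ^ 2| := by
    have : (1 : ℤ) ≤ |2 * N ^ 2 - M ^ 2| := Int.one_le_abs hne
    exact_mod_cast this
  have hfac : |2 * (N : ℝ) ^ 2 - M ^ 2| = |Real.sqrt 2 * N - M| * |Real.sqrt 2 * N + M| := by
    rw [← abs_mul]; congr 1; ring_nf
    rw [show Real.sqrt 2 ^ 2 = 2 by rw [pow_two]; exact hs2]
  rw [div_le_iff₀ (by positivity)]
  rcases le_or_gt |(M : ℝ)| (2 * N) with h | h
  · have h1 : |Real.sqrt 2 * N + M| ≤ 4 * N := by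
      calc |Real.sqrt 2 * N + M| ≤ |Real.sqrt 2 * N| + |(M : ℝ)| := abs_add_le _ _
        _ ≤ 1.5 * N + 2 * N := by
          rw [abs_of_nonneg (by positivity)]
          nlinarith
        _ ≤ 4 * N := by nlinarith
    calc (1 : ℝ) ≤ |Real.sqrt 2 * N - M| * |Real.sqrt 2 * N + M| := by rw [← hfac]; exact habs
      _ ≤ |Real.sqrt 2 * N - M| * (4 * N) := mul_le_mul_of_nonneg_left h1 (abs_nonneg _)
  · have h1 : (1 : ℝ) / 2 * N ≤ |Real.sqrt 2 * N - M| := by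
      have h2 : |(M : ℝ)| ≤ |Real.sqrt 2 * N| + |Real.sqrt 2 * N - M| := by
        calc |(M : ℝ)| = |Real.sqrt 2 * N - (Real.sqrt 2 * N - M)| := by congr 1; ring
          _ ≤ |Real.sqrt 2 * N| + |Real.sqrt 2 * N - M| := abs_sub _ _
      rw [abs_of_nonneg (show 0 ≤ Real.sqrt 2 * N by positivity)] at h2
      nlinarith
    nlinarith

lemma coord_le {n : ℕ} (v : Fin n → ℝ) (i : Fin n) : |v i| ≤ ‖v‖ := by
  have := norm_le_pi_norm v i
  rwa [Real.norm_eq_abs] at this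

lemma lower_bound (lam : ℝ) (x y : Fin 2 → ℤ) (hy : y ≠ 0) :
    1 / (16 * ‖(fun i => (y i : ℝ))‖ ^ 3) ≤
      ‖(A - lam • (1 : Matrix (Fin 2) (Fin 2) ℝ)).mulVec (fun i => (y i : ℝ))
        - (fun i => (x i : ℝ))‖ := by
  set e : Fin 2 → ℝ := (A - lam • (1 : Matrix (Fin 2) (Fin 2) ℝ)).mulVec (fun i => (y i : ℝ))
        - (fun i => (x i : ℝ)) with he
  set H : ℝ := ‖(fun i => (y i : ℝ))‖ with hH
  have he0 : e 0 = -lam * y 0 + Real.sqrt 2 * y 1 - x 0 := by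
    have : e 0 = (∑ j, (A - lam • (1 : Matrix (Fin 2) (Fin 2) ℝ)) 0 j * (y j : ℝ)) - x 0 := rfl
    rw [this, Fin.sum_univ_two]
    simp [A]
  have he1 : e 1 = -Real.sqrt 2 * y 0 - lam * y 1 - x 1 := by
    have : e 1 = (∑ j, (A - lam • (1 : Matrix (Fin 2) (Fin 2) ℝ)) 1 j * (y j : ℝ)) - x 1 := rfl
    rw [this, Fin.sum_univ_two]
    simp [A]
    ring
  have hy0 : |(y 0 : ℝ)| ≤ H := coord_le (fun i => (y i : ℝ)) 0
  have hy1 : |(y 1 : ℝ)| ≤ H := coord_le (fun i => (y i : ℝ)) 1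
  set N : ℤ := y 0 ^ 2 + y 1 ^ 2 with hN
  set M : ℤ := x 0 * y 1 - x 1 * y 0 with hM
  have hN1 : 1 ≤ N := by
    by_contra hlt
    push Not at hlt
    have h0 : y 0 = 0 := by nlinarith [sq_nonneg (y 0), sq_nonneg (y 1)]
    have h1 : y 1 = 0 := by nlinarith [sq_nonneg (y 0), sq_nonneg (y 1)]
    apply hy
    funext i
    fin_cases i
    · exact h0
    · exact h1
  have hNR : (1 : ℝ) ≤ N := by exact_mod_cast hN1
  have hkey : (y 1 : ℝ) * e 0 - y 0 * e 1 = Real.sqrt 2 * N - M := by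
    rw [he0, he1, hN, hM]; push_cast; ring
  have hb := sqrt_two_bound N M hN1
  have hNH : (N : ℝ) ≤ 2 * H ^ 2 := by
    rw [hN]; push_cast
    have h1 : (y 0 : ℝ) ^ 2 ≤ H ^ 2 := sq_le_sq' (by linarith [neg_abs_le (y 0 : ℝ)])
      (by linarith [le_abs_self (y 0 : ℝ)])
    have h2 : (y 1 : ℝ) ^ 2 ≤ H ^ 2 := sq_le_sq' (by linarith [neg_abs_le (y 1 : ℝ)])
      (by linarith [le_abs_self (y 1 : ℝ)])
    linarith
  have hH0 : 0 ≤ H := norm_nonneg _
  have hHpos : 0 < H := by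
    rcases hH0.eq_or_lt with h | h
    · rw [← h] at hNH; norm_num at hNH; linarith
    · exact h
  have hup : |Real.sqrt 2 * N - M| ≤ 2 * H * ‖e‖ := by
    rw [← hkey]
    calc |(y 1 : ℝ) * e 0 - y 0 * e 1| ≤ |(y 1 : ℝ) * e 0| + |y 0 * e 1| := abs_sub _ _
      _ = |(y 1 : ℝ)| * |e 0| + |(y 0 : ℝ)| * |e 1| := by rw [abs_mul, abs_mul]
      _ ≤ H * ‖e‖ + H * ‖e‖ := by
        gcongr
        · exact coord_le e 0
        · exact coord_le e 1
      _ = 2 * H * ‖e‖ := by ring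
  have h1 : 1 / (8 * H ^ 2) ≤ 1 / (4 * (N : ℝ)) := by
    apply one_div_le_one_div_of_le (by positivity)
    linarith
  have h2 : 1 / (8 * H ^ 2) ≤ 2 * H * ‖e‖ := h1.trans (hb.trans hup)
  rw [div_le_iff₀ (by positivity)] at h2 ⊢
  calc (1 : ℝ) ≤ 2 * H * ‖e‖ * (8 * H ^ 2) := h2
    _ = ‖e‖ * (16 * H ^ 3) := by ring

lemma no_good {lam : ℝ} {x y : Fin 2 → ℤ} (hy2 : 2 ≤ ‖(fun i => (y i : ℝ))‖) {N : ℝ}
    (hN : 7 ≤ N) :
    ¬ ‖(A - lam • (1 : Matrix (Fin 2) (Fin 2) ℝ)).mulVec (fun i => (y i : ℝ))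
        - (fun i => (x i : ℝ))‖ < ‖(fun i => (y i : ℝ))‖ ^ (-N) := by
  intro hlt
  have hy : y ≠ 0 := by
    intro h
    rw [h] at hy2
    have : (fun i : Fin 2 => (((0 : Fin 2 → ℤ) i : ℤ) : ℝ)) = 0 := by funext i; simp
    rw [this, norm_zero] at hy2
    linarith
  have hb := lower_bound lam x y hy
  set H : ℝ := ‖(fun i => (y i : ℝ))‖ with hH
  have h1 : H ^ (-N) ≤ 1 / (16 * H ^ 3) := by
    have h2 : H ^ (-N) ≤ H ^ (-(7 : ℝ)) :=
      Real.rpow_le_rpow_of_exponent_le (by linarith) (by linarith)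
    have h3 : H ^ (-(7 : ℝ)) = 1 / (H ^ 4 * H ^ 3) := by
      rw [Real.rpow_neg (by linarith), show (7 : ℝ) = ((7 : ℕ) : ℝ) by norm_num,
        Real.rpow_natCast, one_div]
      congr 1; ring
    rw [h3] at h2
    refine h2.trans ?_
    apply one_div_le_one_div_of_le (by positivity)
    have h4 : (2 : ℝ) ^ 4 ≤ H ^ 4 := pow_le_pow_left₀ (by norm_num) hy2 4
    have h5 : 0 < H ^ 3 := by positivity
    nlinarith
  linarith

/-- **The answer to Q1 is no.**  For `A = √2 · [[0, 1], [-1, 0]]` there is no real `λ` for which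
`A - λ I` is a Liouville matrix (in either of the two usual readings of the definition); moreover
`‖(A - λ I) y - x‖ ≥ 1 / (16 ‖y‖³)` uniformly in `λ`, `x` and `y ≠ 0`. -/
theorem result :
    (∀ lam : ℝ, ¬ IsLiouvilleMatrix (A - lam • (1 : Matrix (Fin 2) (Fin 2) ℝ)) ∧
      ¬ IsLiouvilleMatrix' (A - lam • (1 : Matrix (Fin 2) (Fin 2) ℝ))) ∧
    (∀ (lam : ℝ) (x y : Fin 2 → ℤ), y ≠ 0 →
      1 / (16 * ‖(fun i => (y i : ℝ))‖ ^ 3) ≤
        ‖(A - lam • (1 : Matrix (Fin 2) (Fin 2) ℝ)).mulVec (fun i => (y i : ℝ))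
          - (fun i => (x i : ℝ))‖) ∧
    ¬ (∀ n : ℕ, 1 ≤ n → ∀ B : Matrix (Fin n) (Fin n) ℝ,
        ∃ lam : ℝ, IsLiouvilleMatrix (B - lam • (1 : Matrix (Fin n) (Fin n) ℝ))) := by
  have h1 : ∀ lam : ℝ, ¬ IsLiouvilleMatrix (A - lam • (1 : Matrix (Fin 2) (Fin 2) ℝ)) := by
    intro lam h
    obtain ⟨x, y, hy, hlt⟩ := h.2 7 (by norm_num)
    exact no_good hy le_rfl hlt
  refine ⟨fun lam => ⟨h1 lam, ?_⟩, fun lam x y hy => lower_bound lam x y hy, ?_⟩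
  · intro h
    apply h.2 7 (by norm_num)
    have hfin : (Set.Icc (fun _ => -1 : Fin 2 → ℤ) (fun _ => 1)).Finite := Set.finite_Icc _ _
    apply hfin.subset
    rintro y ⟨hy, x, hlt⟩
    have hlt2 : ‖(fun i => (y i : ℝ))‖ < 2 := by
      by_contra hge
      push Not at hge
      exact no_good hge le_rfl hlt
    constructor <;> intro i
    · have h3 := coord_le (fun i => (y i : ℝ)) i
      have h4 : -2 < (y i : ℝ) := by
        have := neg_abs_le (y i : ℝ); linarith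
      have : (-2 : ℤ) < y i := by exact_mod_cast h4
      simp only; omega
    · have h3 := coord_le (fun i => (y i : ℝ)) i
      have h4 : (y i : ℝ) < 2 := by
        have := le_abs_self (y i : ℝ); linarith
      have : y i < (2 : ℤ) := by exact_mod_cast h4
      simp only; omega
  · intro h
    obtain ⟨lam, hlam⟩ := h 2 (by norm_num) A
    exact h1 lam hlam

end Pool.Agent.Results.MP_14d1e0_nt.NoShiftIsLiouville
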